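import Pool.Agent.helper60.RF.SpecB

set_option autoImplicit false

/-!
# RF (MP_16912e_nt), row CTZ: no fifth roots of unity in the mirror field
-/

namespace Pool.Agent.RF

open NumberField

/-- a rational number whose square is an integer is an integer -/
theorem CTZ_int (a : ℚ) (n : ℤ) (h : a ^ 2 = n) : ∃ m : ℤ, a = m ∧ m ^ 2 = n := by
  have h1 : (a ^ 2).den = 1 := by rw [h]; exact Rat.den_intCast n
  rw [Rat.den_pow] at h1
  have h2 : a.den = 1 := by simpa using h1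
  have h3 : a = a.num := ((Rat.den_eq_one_iff a).1 h2).symm
  refine ⟨a.num, h3, ?_⟩
  rw [h3] at h
  exact_mod_cast h

theorem CTZ_five (a b : ℚ) (h : a ^ 2 = 5 * b ^ 2) : a = 0 ∧ b = 0 := by
  by_cases hb : b = 0
  · rw [hb] at h
    have : a ^ 2 = 0 := by rw [h]; ring
    exact ⟨by simpa using this, hb⟩
  · exfalso
    have h1 : (a / b) ^ 2 = ((5 : ℤ) : ℚ) := by
      rw [div_pow, h]
      push_cast
      field_simp
    obtain ⟨m, -, hm⟩ := CTZ_int _ _ h1
    have h2 : m ≤ 2 := by nlinarith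
    have h3 : -2 ≤ m := by nlinarith
    interval_cases m <;> omega

theorem CTZ_sq (D : ℤ) (hD : 1 < D) (hsq : Squarefree D) (a : ℚ) (h : a ^ 2 = D) : False := by
  obtain ⟨m, -, hm⟩ := CTZ_int _ _ h
  have h1 : m * m ∣ D := ⟨1, by rw [← hm]; ring⟩
  have h2 := hsq m h1
  rcases Int.isUnit_iff.1 h2 with h3 | h3
  · rw [h3] at hm
    omega
  · rw [h3] at hm
    omega

theorem CTZ_sq5 (D : ℤ) (hsq : Squarefree D) (hD5 : D ≠ 5) (b : ℚ) (h : 5 * b ^ 2 = D) : False := by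
  have h0 : (5 * b) ^ 2 = ((5 * D : ℤ) : ℚ) := by
    push_cast
    rw [← h]
    ring
  obtain ⟨m, -, hm⟩ := CTZ_int _ _ h0
  have h5 : Prime (5 : ℤ) := by norm_num
  have h1 : (5 : ℤ) ∣ m := h5.dvd_of_dvd_pow ⟨D, hm⟩
  obtain ⟨k, hk⟩ := h1
  have h2 : D = 5 * (k * k) := by
    rw [hk] at hm
    have : 5 * D = 5 * (5 * (k * k)) := by rw [← hm]; ring
    exact mul_left_cancel₀ (by norm_num) this
  have h3 := hsq k ⟨5, by rw [h2]; ring⟩
  rcases Int.isUnit_iff.1 h3 with h4 | h4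
  · rw [h4] at h2
    omega
  · rw [h4] at h2
    omega

/-- the main case: a primitive fifth root of unity with `2 (ζ + ζ⁻¹) + 1 = r` is impossible -/
theorem CTZ_main (h1 : CTA_stmt) (D : ℤ) (F : Type) [Field F] [NumberField F] (s : F ≃+* F) (r w : F) (hD : 1 < D) (hsq : Squarefree D) (hD5 : D ≠ 5)
    (hM : Mir D F s r w) (z : F) (hz : z ^ 4 + z ^ 3 + z ^ 2 + z + 1 = 0) (hr : 2 * (z + z ^ 4) + 1 = r) : False := by
  obtain ⟨hspan, hind⟩ := h1 D F s r w (by omega) hM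
  have hr2 := hM.r2
  have hw2 := hM.w2
  have hz5 : z ^ 5 = 1 := by linear_combination (z - 1) * hz
  have hv2 : (z - z ^ 4) ^ 2 = -(r * ((1 + r) / 2)) := by
    have e1 : (z - z ^ 4) ^ 2 = z ^ 2 + z ^ 3 - 2 := by linear_combination (z ^ 3 - 2) * hz5
    have e2 : z ^ 2 + z ^ 3 = -(1 + r) / 2 := by
      rw [← hr]
      linear_combination hz
    rw [e1, e2]
    linear_combination (1 / 2 : F) * hr2
  have hv0 : z - z ^ 4 ≠ 0 := by
    intro h0
    rw [h0] at hv2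
    have e1 : r = -5 := by linear_combination 2 * hv2 - hr2
    rw [e1] at hr2
    norm_num at hr2
  have hDF : (D : F) ≠ 0 := by
    have : D ≠ 0 := by omega
    exact_mod_cast this
  obtain ⟨a, b, c, d, habcd⟩ := hspan (w / (z - z ^ 4))
  have ht2 : (w / (z - z ^ 4)) ^ 2 = D := by
    rw [div_pow, hw2, hv2]
    have e1 : -(r * ((1 + r) / 2)) ≠ 0 := by rw [← hv2]; exact pow_ne_zero 2 hv0
    rw [div_eq_iff e1]
    ring
  rw [habcd] at ht2
  have hE := hind (a ^ 2 + 5 * b ^ 2 - D / 2 * (5 * (c ^ 2 + 5 * d ^ 2) + 10 * c * d) - D) (2 * a * b - D / 2 * (c ^ 2 + 5 * d ^ 2 + 10 * c * d)) (2 * (a * c + 5 * b * d)) (2 * (a * d + b * c)) (by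
    push_cast
    linear_combination ht2 - (c + d * r) ^ 2 * hw2 + (-(b : F) ^ 2 + D / 2 * (c ^ 2 + 2 * c * d + 2 * c * d * r + d ^ 2 * r + d ^ 2 * (r ^ 2 + 5)) - 2 * b * d * w) * hr2)
  obtain ⟨E1, E2, E3, E4⟩ := hE
  have hDq : (D : ℚ) ≠ 0 := by
    have : D ≠ 0 := by omega
    exact_mod_cast this
  have hnorm : (a ^ 2 - 5 * b ^ 2) * (c ^ 2 - 5 * d ^ 2) = 0 := by
    have e3 : a * c + 5 * b * d = 0 := by linarith
    have e4 : a * d + b * c = 0 := by linarith
    linear_combination (a * c + 5 * b * d) * e3 - 5 * (a * d + b * c) * e4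
  rcases mul_eq_zero.1 hnorm with hA | hB
  · obtain ⟨ha, hb⟩ := CTZ_five a b (by linarith)
    rw [ha, hb] at E1
    have e5 : (D : ℚ) * (5 * (c ^ 2 + 5 * d ^ 2) + 10 * c * d + 2) = 0 := by linear_combination -2 * E1
    rcases mul_eq_zero.1 e5 with h | h
    · exact hDq h
    · nlinarith [sq_nonneg (c + d), sq_nonneg d]
  · obtain ⟨hc, hd⟩ := CTZ_five c d (by linarith)
    rw [hc, hd] at E1 E2
    have e6 : a * b = 0 := by linarith
    have e7 : a ^ 2 + 5 * b ^ 2 = D := by linarith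
    rcases mul_eq_zero.1 e6 with h | h
    · rw [h] at e7
      exact CTZ_sq5 D hsq hD5 b (by linarith)
    · rw [h] at e7
      exact CTZ_sq D hD hsq a (by linarith)

theorem CTZ (h1 : CTA_stmt) : CTZ_stmt := by
  intro D F _ _ s r w hD hsq hD5 hM x y hxy
  by_contra hne
  have hy : y ≠ 0 := by
    intro h0
    rw [h0] at hxy hne
    have : x ^ 5 = 0 := by rw [hxy]; ring
    exact hne (by simpa using this)
  have hz5 : (x / y) ^ 5 = 1 := by rw [div_pow, hxy, div_self (pow_ne_zero 5 hy)]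
  have hz1 : x / y ≠ 1 := by
    intro h
    exact hne ((div_eq_one_iff_eq hy).1 h)
  set z := x / y with hzdef
  have hz : z ^ 4 + z ^ 3 + z ^ 2 + z + 1 = 0 := by
    have h2 : (z - 1) * (z ^ 4 + z ^ 3 + z ^ 2 + z + 1) = 0 := by linear_combination hz5
    rcases mul_eq_zero.1 h2 with h | h
    · exact absurd (sub_eq_zero.1 h) hz1
    · exact h
  have hu : (2 * (z + z ^ 4) + 1) ^ 2 = r ^ 2 := by
    rw [hM.r2]
    linear_combination 4 * hz + (4 * z ^ 3 + 8) * hz5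
  rcases sq_eq_sq_iff_eq_or_eq_neg.1 hu with h | h
  · exact CTZ_main h1 D F s r w hD hsq hD5 hM z hz h
  · refine CTZ_main h1 D F s r w hD hsq hD5 hM (z ^ 2) ?_ ?_
    · linear_combination hz + (z ^ 3 + z) * hz5
    · linear_combination 2 * hz + 2 * z ^ 3 * hz5 - h

end Pool.Agent.RF
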