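import Pool.Agent.helper13.RF.SpecU
import Pool.Agent.helper53.RF.TVA

/-!
# Project RF (MP_16912e_nt), stage 2, row UYE: what the type says at the primes above `f`
-/

set_option autoImplicit false

namespace Pool.Agent.RF

open NumberField

theorem UYE_pow {R : Type} [CommRing R] (e : R ≃+* R) (P : Ideal R) (k : ℕ) :
    (P.comap (e : R →+* R)) ^ k = (P ^ k).comap (e : R →+* R) := by
  have h1 : ∀ I : Ideal R, I.comap (e : R →+* R) = I.map (e.symm : R →+* R) := by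
    intro I
    ext x
    rw [Ideal.mem_comap]
    constructor
    · intro h
      have h2 := Ideal.mem_map_of_mem (e.symm : R →+* R) h
      rw [RingEquiv.coe_toRingHom, RingEquiv.coe_toRingHom, RingEquiv.symm_apply_apply] at h2
      exact h2
    · intro h
      have h3 : I.map (e.symm : R →+* R) ≤ I.comap (e : R →+* R) := by
        rw [Ideal.map_le_iff_le_comap]
        intro y hy
        rw [Ideal.mem_comap, Ideal.mem_comap, RingEquiv.coe_toRingHom, RingEquiv.coe_toRingHom, RingEquiv.apply_symm_apply]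
        exact hy
      exact h3 h
  rw [h1, h1, Ideal.map_pow]

/-- the valuation at the inverse image under an automorphism -/
theorem UYE_vv {F : Type} [Field F] [NumberField F] (e : 𝓞 F ≃+* 𝓞 F) (P : Ideal (𝓞 F)) (hP : P.IsPrime) (hP0 : P ≠ ⊥) :
    (P.comap (e : 𝓞 F →+* 𝓞 F)).IsPrime ∧ P.comap (e : 𝓞 F →+* 𝓞 F) ≠ ⊥ ∧
      ∀ x : 𝓞 F, x ≠ 0 → vv (P.comap (e : 𝓞 F →+* 𝓞 F)) x = vv P (e x) := by
  have h1 : (P.comap (e : 𝓞 F →+* 𝓞 F)).IsPrime := Ideal.comap_isPrime _ _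
  have h2 : P.comap (e : 𝓞 F →+* 𝓞 F) ≠ ⊥ := by
    intro h
    apply hP0
    rw [Submodule.eq_bot_iff]
    intro y hy
    have h3 : e.symm y ∈ P.comap (e : 𝓞 F →+* 𝓞 F) := by
      rw [Ideal.mem_comap, RingEquiv.coe_toRingHom, RingEquiv.apply_symm_apply]
      exact hy
    rw [h, Ideal.mem_bot] at h3
    have h4 := congrArg e h3
    rwa [RingEquiv.apply_symm_apply, map_zero] at h4
  refine ⟨h1, h2, ?_⟩
  intro x hx
  have hex : e x ≠ 0 := (map_ne_zero_iff e e.injective).2 hx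
  have h3 : ∀ k : ℕ, k ≤ vv (P.comap (e : 𝓞 F →+* 𝓞 F)) x ↔ k ≤ vv P (e x) := by
    intro k
    rw [← TVA_mem _ h1 h2 x k hx, ← TVA_mem P hP hP0 (e x) k hex, UYE_pow, Ideal.mem_comap, RingEquiv.coe_toRingHom]
  exact le_antisymm ((h3 _).1 le_rfl) ((h3 _).2 le_rfl)

theorem UYE (h2 : UUE_stmt) (h3 : VVM_stmt) : UYE_stmt := by
  intro D₀ F _ _ C p q f hp hq hpD hqD hS P hP hP0 hfP
  obtain ⟨-, -, up, -, -, -, -, -, -, -, -, hf0, -, hup0, hnp0, -, -, hs4, -⟩ := h2 D₀ F C p f hp hpD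
  obtain ⟨-, -, uq, -, -, -, -, -, -, -, -, -, -, huq0, hnq0, -, -, -, -⟩ := h2 D₀ F C q f hq hqD
  obtain ⟨vm, -, -⟩ := h3 F P hP hP0
  have tne : ∀ x : 𝓞 F, x ≠ 0 → C.σ (C.σ x) ≠ 0 := fun x hx =>
    (map_ne_zero_iff C.σ C.σ.injective).2 ((map_ne_zero_iff C.σ C.σ.injective).2 hx)
  have vpow : ∀ x : 𝓞 F, x ≠ 0 → vv P (x ^ 5) = 5 * vv P x := by
    intro x hx
    have e1 : x ^ 5 = x * (x * (x * (x * x))) := by ring
    have n2 := mul_ne_zero hx hx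
    have n3 := mul_ne_zero hx n2
    have n4 := mul_ne_zero hx n3
    rw [e1, vm _ _ hx n4, vm _ _ hx n3, vm _ _ hx n2, vm _ _ hx hx]
    ring
  have ep : vv P (uu C f p) + vv P (C.σ (C.σ (uu C f p))) = 5 * vv P (C.ι p.n) := by
    rw [← vm _ _ hup0 (tne _ hup0), up, vpow _ hnp0]
  have eq : vv P (uu C f q) + vv P (C.σ (C.σ (uu C f q))) = 5 * vv P (C.ι q.n) := by
    rw [← vm _ _ huq0 (tne _ huq0), uq, vpow _ hnq0]
  have s0 := (hS P hP hfP).2
  obtain ⟨g1, g2, g3⟩ := UYE_vv (C.σ.trans C.σ) P hP hP0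
  have hfm : (f : 𝓞 F) ∈ P.comap ((C.σ.trans C.σ : 𝓞 F ≃+* 𝓞 F) : 𝓞 F →+* 𝓞 F) := by
    rw [Ideal.mem_comap, map_natCast]
    exact hfP
  have s2 := (hS _ g1 hfm).2
  rw [g3 _ (tne _ hup0), g3 _ (tne _ huq0), g3 _ hf0] at s2
  have t1 : (C.σ.trans C.σ) (C.σ (C.σ (uu C f p))) = uu C f p := hs4 _
  have t2 : (C.σ.trans C.σ) (C.σ (C.σ (uu C f q))) = uu C f q := hs4 _
  rw [t1, t2, map_natCast] at s2
  refine ⟨by omega, ?_⟩
  intro z hz
  have hz0 : z ≠ 0 := by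
    intro h
    rw [h, zero_pow (by norm_num)] at hz
    exact mul_ne_zero (tne _ hup0) huq0 hz.symm
  have ez := vpow z hz0
  rw [hz, vm _ _ (tne _ hup0) huq0] at ez
  omega

end Pool.Agent.RF
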