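import Pool.Agent.helper13.RF.SpecM

/-!
# Project RF (MP_16912e_nt), row HAR: the factors `g`, `h2 f g`, `F2 f g` of `f`
-/

set_option autoImplicit false

namespace Pool.Agent.RF

open NumberField

/-- the factorization of a product of prime powers -/
theorem HAR_fac (S : Finset ℕ) (hS : ∀ l ∈ S, l.Prime) (a : ℕ → ℕ) (p : ℕ) : (∏ l ∈ S, l ^ a l).factorization p = if p ∈ S then a p else 0 := by
  rw [Nat.factorization_prod (fun l hl => pow_ne_zero _ (hS l hl).ne_zero), Finset.sum_apply']
  have h1 : ∀ l ∈ S, (l ^ a l).factorization p = if l = p then a l else 0 := by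
    intro l hl
    rw [(hS l hl).factorization_pow, Finsupp.single_apply]
  rw [Finset.sum_congr rfl h1, Finset.sum_ite_eq' S p a]

theorem HAR : HAR_stmt := by
  intro f g hf hgf
  have hg : 0 < g := Nat.pos_of_dvd_of_pos hgf hf
  have hF0 : 0 < F2 f g := Finset.prod_pos fun l hl => pow_pos (Nat.prime_of_mem_primeFactors hl).pos _
  have hh0 : 0 < h2 f g := Finset.prod_pos fun l hl => pow_pos (Nat.prime_of_mem_primeFactors hl).pos _
  have hF : ∀ p, (F2 f g).factorization p = if p ∈ f.primeFactors then f.factorization p - 28 * g.factorization p else 0 := fun p =>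
    HAR_fac _ (fun l hl => Nat.prime_of_mem_primeFactors hl) _ p
  have hh : ∀ p, (h2 f g).factorization p = if p ∈ g.primeFactors then min (f.factorization p - g.factorization p) (27 * g.factorization p) else 0 := fun p =>
    HAR_fac _ (fun l hl => Nat.prime_of_mem_primeFactors hl) _ p
  have hle : ∀ p, g.factorization p ≤ f.factorization p := fun p => (Nat.factorization_le_iff_dvd hg.ne' hf.ne').2 hgf p
  have hz : ∀ (n p : ℕ), p ∉ n.primeFactors → n.factorization p = 0 := by
    intro n p hp
    rwa [← Nat.support_factorization, Finsupp.notMem_support_iff] at hp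
  refine ⟨?_, ?_, hF0, hh0, ?_⟩
  · refine Nat.eq_of_factorization_eq (by positivity) hf.ne' fun p => ?_
    rw [Nat.factorization_mul (by positivity) hF0.ne', Nat.factorization_mul hg.ne' hh0.ne', Finsupp.add_apply, Finsupp.add_apply, hF, hh]
    have h1 := hle p
    by_cases hpf : p ∈ f.primeFactors
    · by_cases hpg : p ∈ g.primeFactors
      · rw [if_pos hpf, if_pos hpg]
        omega
      · rw [if_pos hpf, if_neg hpg]
        have := hz g p hpg
        omega
    · have h2 := hz f p hpf
      by_cases hpg : p ∈ g.primeFactors
      · rw [if_neg hpf, if_pos hpg]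
        omega
      · rw [if_neg hpf, if_neg hpg]
        omega
  · rw [← Nat.factorization_le_iff_dvd hh0.ne' (pow_ne_zero _ hg.ne')]
    intro p
    rw [hh, Nat.factorization_pow, Finsupp.smul_apply, smul_eq_mul]
    split_ifs
    · exact min_le_right _ _
    · exact Nat.zero_le _
  · refine le_trans (Finset.card_le_card ?_) (Finset.card_union_le _ _)
    intro p hp
    rw [Finset.mem_union]
    by_cases hpg : p ∈ g.primeFactors
    · exact Or.inl hpg
    · right
      rw [← Nat.support_factorization, Finsupp.mem_support_iff, hF, if_pos hp, hz g p hpg]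
      rw [← Nat.support_factorization, Finsupp.mem_support_iff] at hp
      omega

end Pool.Agent.RF
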