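import Pool.Agent.helper60.RF.SpecB

set_option autoImplicit false

/-!
# RF (MP_16912e_nt), row TID: identities in the mirror field
-/

namespace Pool.Agent.RF

open NumberField

theorem TID_ph : (ph - 1) * ph = (1 : OO) := rfl

theorem TID_star : star ph = (1 : OO) - ph := rfl

theorem TID_w2 : (ph - 1) * w2 = r5 := rfl

theorem TID_25 : star (25 : OO) = 25 := rfl

theorem TID_sw {D : ℤ} {F : Type} [Field F] [NumberField F] (C : Ctx D F) : C.σ C.w = C.ι (ph - 1) * C.w := by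
  have h := C.σw
  have h1 : C.ι (ph - 1) * C.ι ph = 1 := by rw [← map_mul, TID_ph, map_one]
  linear_combination C.ι (ph - 1) * h - C.σ C.w * h1

theorem TID_ssw {D : ℤ} {F : Type} [Field F] [NumberField F] (C : Ctx D F) : C.σ (C.σ C.w) = -C.w := by
  have h1 : C.ι (star (ph - 1)) * C.ι (ph - 1) = -1 := by
    rw [← map_mul]
    have h2 : star (ph - 1) * (ph - 1) = (-1 : OO) := by
      rw [star_sub, star_one, TID_star]
      linear_combination -TID_ph
    rw [h2, map_neg, map_one]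
  rw [TID_sw, map_mul, C.σι, TID_sw]
  linear_combination C.w * h1

theorem TID_s4 {D : ℤ} {F : Type} [Field F] [NumberField F] (C : Ctx D F) (x : 𝓞 F) : C.σ (C.σ (C.σ (C.σ x))) = x := by
  obtain ⟨a, b, h⟩ := C.co x
  have h1 : C.σ (C.σ (C.σ (C.σ (10 * x)))) = 10 * x := by
    rw [h]
    simp only [map_add, map_mul, C.σι, star_star, TID_ssw, map_neg, neg_neg]
  simp only [map_mul, map_ofNat] at h1
  exact mul_left_cancel₀ (by norm_num) h1

theorem TID (h1 : TRA_stmt) : TID_stmt := by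
  intro D₀ F _ _ C p f hp hD
  obtain ⟨-, -, t3⟩ := h1 p hp
  have hf : C.ι (f : OO) = (f : 𝓞 F) := map_natCast _ _
  have hD0 : C.ι (D₀ : OO) = (D₀ : 𝓞 F) := map_intCast _ _
  have hDc : (p.D : OO) = (D₀ : OO) * (f : OO) ^ 2 := by
    rw [hD]
    push_cast
    ring
  have hσf : C.σ (f : 𝓞 F) = f := map_natCast _ _
  have hss : C.σ (C.σ (th C f p)) = C.ι p.X - C.ι (25 * p.k) * (f : 𝓞 F) * C.w := by
    unfold th
    rw [map_add, map_mul, map_mul, C.σι, C.σι, hσf, map_add, map_mul, map_mul, C.σι, C.σι, hσf, star_star, star_star, TID_ssw]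
    ring
  refine ⟨?_, ?_, ?_, ?_, TID_s4 C⟩
  · rw [hss]
    unfold th
    have e1 := congrArg C.ι hp.e1
    rw [hDc] at e1
    simp only [map_add, map_mul, map_pow] at e1
    rw [hf, hD0] at e1
    simp only [map_mul, map_pow]
    have ww := C.ww
    linear_combination e1 - C.ι 25 ^ 2 * C.ι p.k ^ 2 * (f : 𝓞 F) ^ 2 * ww
  · obtain ⟨q, hq⟩ := t3
    refine ⟨C.ι q + C.ι ((ph - 1) * p.M) * (f : 𝓞 F) * C.w, ?_⟩
    rw [hss]
    unfold th
    rw [hDc] at hq
    have e2 := congrArg C.ι hq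
    have e3 := congrArg C.ι hp.e2
    have e4 : C.ι ((ph - 1) * w2) = C.ι r5 := by rw [TID_w2]
    have e5 : C.ι (ph - 1) * C.ι ph = 1 := by rw [← map_mul, TID_ph, map_one]
    simp only [map_add, map_mul, map_pow, map_sub, map_one, star_mul', TID_25] at e2 e3 e4 e5
    rw [hf, hD0] at e2
    have ww := C.ww
    simp only [map_mul, map_sub, map_one, C.σι, hσf, TID_sw, TID_25]
    linear_combination e2 + C.ι 25 * C.ι p.k * (C.ι 25 * C.ι (star p.k)) * (f : 𝓞 F) ^ 2 * (D₀ : 𝓞 F) * e4 - (f : 𝓞 F) * C.w * (C.ι 25 * C.ι p.k) * C.ι (star p.X) * e5 -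
      (f : 𝓞 F) * C.w * (C.ι ph - 1) * e3 - C.ι 25 * C.ι p.k * (C.ι 25 * C.ι (star p.k)) * (f : 𝓞 F) ^ 2 * (C.ι ph - 1) * ww
  · rw [hss]
    unfold th
    simp only [map_mul, map_ofNat]
    ring
  · intro h0
    unfold th at h0
    have h2 := C.ind p.X (25 * p.k * (f : OO)) (by rw [map_mul, hf]; exact h0)
    have h3 := hp.X1
    rw [h2.1] at h3
    obtain ⟨c, hc⟩ := h3
    have h4 := congrArg QuadraticAlgebra.re hc
    have h5 : (25 * c).re = 25 * c.re := by
      show (QuadraticAlgebra.re ((⟨25, 0⟩ : OO) * c)) = _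
      simp
    rw [h5] at h4
    have h6 : ((0 : OO) - 1).re = -1 := rfl
    omega

end Pool.Agent.RF
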